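import Mathlib
import Pool.Agent.X102.Lap
import Pool.Agent.X102.LapHol
import Pool.Agent.X102.Curve

set_option autoImplicit false

open Filter Topology Set MeasureTheory Laplacian InnerProductSpace
open Pool.Agent.X102 Pool.Agent.X102.Curve

namespace Pool.Agent.Results.MP_ae50c7_an.InfiniteDiameter

lemma hasDerivAt_logcosh {v : ℝ → ℝ} {v' t : ℝ} (h : HasDerivAt v v' t) :
    HasDerivAt (fun s => Real.log (Real.cosh (v s))) (Real.tanh (v t) * v') t := by
  have h1 := (h.cosh).log (Real.cosh_pos _).ne'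
  refine h1.congr_deriv ?_
  rw [Real.tanh_eq_sinh_div_cosh]; ring

lemma hasDerivAt_tanh' {v : ℝ → ℝ} {v' t : ℝ} (h : HasDerivAt v v' t) :
    HasDerivAt (fun s => Real.tanh (v s)) (v' / Real.cosh (v t) ^ 2) t := by
  have h1 := h.sinh.div h.cosh (Real.cosh_pos _).ne'
  have h2 : (fun s => Real.tanh (v s)) = fun s => Real.sinh (v s) / Real.cosh (v s) := by
    ext s; rw [Real.tanh_eq_sinh_div_cosh]
  rw [h2]
  refine h1.congr_deriv ?_
  have h3 := Real.cosh_sq (v t)
  have h4 := (Real.cosh_pos (v t)).ne'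
  field_simp
  rw [h3]; ring

/-- `Δ (Re A - log cosh (Im F)) = - |F'|² / cosh² (Im F)`. -/
lemma lap_general {A A' A'' F F' F'' : ℂ → ℂ} (hA : ∀ w, HasDerivAt A (A' w) w)
    (hA' : ∀ w, HasDerivAt A' (A'' w) w) (hF : ∀ w, HasDerivAt F (F' w) w)
    (hF' : ∀ w, HasDerivAt F' (F'' w) w)
    (hc : ContDiff ℝ 2 (fun w : ℂ => (A w).re - Real.log (Real.cosh (F w).im))) (z : ℂ) :
    (Δ (fun w : ℂ => (A w).re - Real.log (Real.cosh (F w).im)) : ℂ → ℝ) z
      = - (‖F' z‖ ^ 2 / Real.cosh (F z).im ^ 2) := by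
  have hns : ∀ w : ℂ, ‖w‖ ^ 2 = w.re ^ 2 + w.im ^ 2 := by
    intro w
    rw [← Complex.normSq_eq_norm_sq, Complex.normSq_apply]; ring
  have key : ∀ e : ℂ, iteratedFDeriv ℝ 2 (fun w : ℂ => (A w).re - Real.log (Real.cosh (F w).im)) z
      ![e, e] = (e * (e * A'' z)).re - ((e * F' z).im ^ 2 / Real.cosh (F z).im ^ 2
        + Real.tanh (F z).im * (e * (e * F'' z)).im) := by
    intro e
    refine iteratedFDeriv_two_line hc.contDiffAt (g := fun t =>
      (e * A' (z + t • e)).re - Real.tanh (F (z + t • e)).im * (e * F' (z + t • e)).im) ?_ ?_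
    · refine Eventually.of_forall fun t => ?_
      have h1 := hasDerivAt_re (hasDerivAt_line (hA (z + t • e)))
      have h2 := hasDerivAt_logcosh (hasDerivAt_im (hasDerivAt_line (hF (z + t • e))))
      exact h1.sub h2
    · have h1 := hasDerivAt_re ((hasDerivAt_line (hA' (z + (0 : ℝ) • e))).const_mul e)
      have h2 := hasDerivAt_im ((hasDerivAt_line (hF' (z + (0 : ℝ) • e))).const_mul e)
      have h3 := hasDerivAt_tanh' (hasDerivAt_im (hasDerivAt_line (hF (z + (0 : ℝ) • e))))
      have h4 := h1.sub (h3.mul h2)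
      refine h4.congr_deriv ?_
      simp only [zero_smul, add_zero]
      ring
  rw [laplacian_eq_iteratedFDeriv_complexPlane]
  simp only [key]
  rw [hns (F' z)]
  simp only [Complex.mul_re, Complex.mul_im, Complex.I_re, Complex.I_im, one_mul, zero_mul,
    zero_sub, zero_add, Complex.one_re, Complex.one_im, sub_zero, add_zero]
  ring

variable {f : ℂ → ℂ}

/-- the solution -/
noncomputable def u (f : ℂ → ℂ) (w : ℂ) : ℝ := (Complex.cos w).re - Real.log (Real.cosh (f w).im)

lemma contDiff_f {n : WithTop ℕ∞} (hf : ∀ w, HasDerivAt f (Complex.exp (Complex.cos w)) w) :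
    ContDiff ℝ n f := by
  have hd : Differentiable ℂ f := fun w => (hf w).differentiableAt
  exact (hd.contDiff (n := n)).restrict_scalars ℝ

lemma contDiff_cos' {n : WithTop ℕ∞} : ContDiff ℝ n (fun w : ℂ => Complex.cos w) := by
  exact (Complex.contDiff_cos (n := n)).restrict_scalars ℝ

lemma contDiff_u {n : WithTop ℕ∞} (hf : ∀ w, HasDerivAt f (Complex.exp (Complex.cos w)) w) :
    ContDiff ℝ n (u f) := by
  unfold u
  have h1 : ContDiff ℝ n (fun w : ℂ => (Complex.cos w).re) :=
    Complex.reCLM.contDiff.comp contDiff_cos'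
  have h2 : ContDiff ℝ n (fun w : ℂ => (f w).im) := Complex.imCLM.contDiff.comp (contDiff_f hf)
  exact h1.sub ((Real.contDiff_cosh.comp h2).log fun w => (Real.cosh_pos _).ne')

lemma exp_u (w : ℂ) : Real.exp (u f w) = ‖Complex.exp (Complex.cos w)‖ / Real.cosh (f w).im := by
  unfold u
  rw [Real.exp_sub, Real.exp_log (Real.cosh_pos _), Complex.norm_exp]

lemma equation (hf : ∀ w, HasDerivAt f (Complex.exp (Complex.cos w)) w) (z : ℂ) :
    Δ (u f) z + Real.exp (2 * u f z) = 0 := by
  have h1 : (Δ (u f) : ℂ → ℝ) z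
      = - (‖Complex.exp (Complex.cos z)‖ ^ 2 / Real.cosh (f z).im ^ 2) := by
    refine lap_general (A := Complex.cos) (A' := fun w => - Complex.sin w)
      (A'' := fun w => - Complex.cos w) (F := f) (F' := fun w => Complex.exp (Complex.cos w))
      (F'' := fun w => Complex.exp (Complex.cos w) * (- Complex.sin w)) ?_ ?_ hf ?_ ?_ z
    · exact fun w => Complex.hasDerivAt_cos w
    · exact fun w => (Complex.hasDerivAt_sin w).neg
    · exact fun w => (Complex.hasDerivAt_cos w).cexp
    · exact contDiff_u hf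
  have h2 : Real.exp (2 * u f z) = Real.exp (u f z) ^ 2 := by
    rw [← Real.exp_nat_mul]; norm_num
  rw [h1, h2, exp_u, div_pow]
  ring

/-- separating function -/
noncomputable def rho (f : ℂ → ℂ) (κ : ℝ) (z : ℂ) : ℝ :=
  Real.cos (κ * (f z).re) * (Real.cosh (f z).im)⁻¹

/-- its derivative -/
noncomputable def rhoD (f : ℂ → ℂ) (κ : ℝ) (z : ℂ) : ℂ →L[ℝ] ℝ :=
  (-(κ * Real.sin (κ * (f z).re) * (Real.cosh (f z).im)⁻¹)) •
      (Complex.reCLM.comp (ContinuousLinearMap.mul ℝ ℂ (Complex.exp (Complex.cos z))))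
    + (-(Real.cos (κ * (f z).re) * (Real.sinh (f z).im * (Real.cosh (f z).im ^ 2)⁻¹))) •
      (Complex.imCLM.comp (ContinuousLinearMap.mul ℝ ℂ (Complex.exp (Complex.cos z))))

lemma hasFDerivAt_rho (hf : ∀ w, HasDerivAt f (Complex.exp (Complex.cos w)) w) (κ : ℝ) (z : ℂ) :
    HasFDerivAt (rho f κ) (rhoD f κ z) z := by
  have hM : HasFDerivAt f (ContinuousLinearMap.mul ℝ ℂ (Complex.exp (Complex.cos z))) z := by
    refine ((hf z).hasFDerivAt.restrictScalars ℝ).congr_fderiv ?_
    ext <;> simp [mul_comm]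
  have hr : HasFDerivAt (fun w => (f w).re)
      (Complex.reCLM.comp (ContinuousLinearMap.mul ℝ ℂ (Complex.exp (Complex.cos z)))) z :=
    Complex.reCLM.hasFDerivAt.comp z hM
  have hi : HasFDerivAt (fun w => (f w).im)
      (Complex.imCLM.comp (ContinuousLinearMap.mul ℝ ℂ (Complex.exp (Complex.cos z)))) z :=
    Complex.imCLM.hasFDerivAt.comp z hM
  have h1 := (hr.const_mul κ).cos
  have h2 := (hasDerivAt_inv (Real.cosh_pos (f z).im).ne').comp_hasFDerivAt z hi.cosh
  have h3 := h1.mul h2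
  refine h3.congr_fderiv ?_
  unfold rhoD
  ext v
  simp
  ring

lemma continuous_rhoD (hf : ∀ w, HasDerivAt f (Complex.exp (Complex.cos w)) w) (κ : ℝ) :
    Continuous (rhoD f κ) := by
  have hfc : Continuous f := (contDiff_f (n := 0) hf).continuous
  have hM : Continuous (fun z : ℂ => ContinuousLinearMap.mul ℝ ℂ (Complex.exp (Complex.cos z))) :=
    (ContinuousLinearMap.mul ℝ ℂ).continuous.comp (Complex.continuous_exp.comp Complex.continuous_cos)
  have hre : Continuous (fun z : ℂ => (f z).re) := Complex.continuous_re.comp hfc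
  have him : Continuous (fun z : ℂ => (f z).im) := Complex.continuous_im.comp hfc
  have hch : Continuous (fun z : ℂ => Real.cosh (f z).im) := Real.continuous_cosh.comp him
  have hsh : Continuous (fun z : ℂ => Real.sinh (f z).im) := Real.continuous_sinh.comp him
  have c1 : Continuous (fun z : ℂ =>
      -(κ * Real.sin (κ * (f z).re) * (Real.cosh (f z).im)⁻¹)) :=
    (((Real.continuous_sin.comp (hre.const_mul κ)).const_mul κ).mul
      (hch.inv₀ fun z => (Real.cosh_pos _).ne')).neg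
  have c2 : Continuous (fun z : ℂ =>
      -(Real.cos (κ * (f z).re) * (Real.sinh (f z).im * (Real.cosh (f z).im ^ 2)⁻¹))) :=
    ((Real.continuous_cos.comp (hre.const_mul κ)).mul (hsh.mul
      ((hch.pow 2).inv₀ fun z => (pow_pos (Real.cosh_pos _) 2).ne'))).neg
  have d1 : Continuous (fun z : ℂ => Complex.reCLM.comp
      (ContinuousLinearMap.mul ℝ ℂ (Complex.exp (Complex.cos z)))) := continuous_const.clm_comp hM
  have d2 : Continuous (fun z : ℂ => Complex.imCLM.comp
      (ContinuousLinearMap.mul ℝ ℂ (Complex.exp (Complex.cos z)))) := continuous_const.clm_comp hM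
  exact (c1.smul d1).add (c2.smul d2)

lemma rhoD_le {κ : ℝ} (hκ : 0 ≤ κ) (z v : ℂ) :
    |rhoD f κ z v| ≤ (κ + 1) * (Real.exp (u f z) * ‖v‖) := by
  have hc := Real.cosh_pos (f z).im
  have e1 : rhoD f κ z v = (-(κ * Real.sin (κ * (f z).re) * (Real.cosh (f z).im)⁻¹)) *
      (Complex.exp (Complex.cos z) * v).re
      + (-(Real.cos (κ * (f z).re) * (Real.sinh (f z).im * (Real.cosh (f z).im ^ 2)⁻¹))) *
      (Complex.exp (Complex.cos z) * v).im := by
    simp [rhoD]
  have h1 : |(Complex.exp (Complex.cos z) * v).re| ≤ ‖Complex.exp (Complex.cos z)‖ * ‖v‖ := by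
    rw [← norm_mul]; exact Complex.abs_re_le_norm _
  have h2 : |(Complex.exp (Complex.cos z) * v).im| ≤ ‖Complex.exp (Complex.cos z)‖ * ‖v‖ := by
    rw [← norm_mul]; exact Complex.abs_im_le_norm _
  have h3 : |(-(κ * Real.sin (κ * (f z).re) * (Real.cosh (f z).im)⁻¹))|
      ≤ κ * (Real.cosh (f z).im)⁻¹ := by
    rw [abs_neg, abs_mul, abs_mul, abs_of_nonneg hκ, abs_of_pos (inv_pos.mpr hc)]
    have := Real.abs_sin_le_one (κ * (f z).re)
    have h5 : κ * |Real.sin (κ * (f z).re)| ≤ κ * 1 := mul_le_mul_of_nonneg_left this hκ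
    rw [mul_one] at h5
    exact mul_le_mul_of_nonneg_right h5 (inv_pos.mpr hc).le
  have h4 : |(-(Real.cos (κ * (f z).re) * (Real.sinh (f z).im * (Real.cosh (f z).im ^ 2)⁻¹)))|
      ≤ (Real.cosh (f z).im)⁻¹ := by
    rw [abs_neg, abs_mul]
    have a1 := Real.abs_cos_le_one (κ * (f z).re)
    have a2 : |Real.sinh (f z).im * (Real.cosh (f z).im ^ 2)⁻¹| ≤ (Real.cosh (f z).im)⁻¹ := by
      rw [abs_mul, abs_of_pos (inv_pos.mpr (pow_pos hc 2))]
      have a3 : |Real.sinh (f z).im| ≤ Real.cosh (f z).im := by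
        apply abs_le_of_sq_le_sq _ hc.le
        rw [Real.cosh_sq]; linarith
      calc |Real.sinh (f z).im| * (Real.cosh (f z).im ^ 2)⁻¹
          ≤ Real.cosh (f z).im * (Real.cosh (f z).im ^ 2)⁻¹ :=
            mul_le_mul_of_nonneg_right a3 (by positivity)
        _ = (Real.cosh (f z).im)⁻¹ := by field_simp
    calc |Real.cos (κ * (f z).re)| * |Real.sinh (f z).im * (Real.cosh (f z).im ^ 2)⁻¹|
        ≤ 1 * (Real.cosh (f z).im)⁻¹ := mul_le_mul a1 a2 (abs_nonneg _) zero_le_one
      _ = _ := one_mul _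
  rw [e1, exp_u]
  refine (abs_add_le _ _).trans ?_
  rw [abs_mul, abs_mul]
  have b1 := mul_le_mul h3 h1 (abs_nonneg _) (by positivity)
  have b2 := mul_le_mul h4 h2 (abs_nonneg _) (by positivity)
  refine (add_le_add b1 b2).trans (le_of_eq ?_)
  rw [div_eq_mul_inv]; ring

/-- values on the walls -/
lemma wall_im (hf : ∀ w, HasDerivAt f (Complex.exp (Complex.cos w)) w) (k : ℕ)
    (h0 : (f (((2 * (k : ℝ) + 1) * Real.pi : ℝ) : ℂ)).im = 0) (s : ℝ) :
    (f ((((2 * (k : ℝ) + 1) * Real.pi : ℝ) : ℂ) + s • Complex.I)).re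
      = (f (((2 * (k : ℝ) + 1) * Real.pi : ℝ) : ℂ)).re ∧
    |(f ((((2 * (k : ℝ) + 1) * Real.pi : ℝ) : ℂ) + s • Complex.I)).im| ≤ Real.pi / 2 := by
  set a : ℂ := (((2 * (k : ℝ) + 1) * Real.pi : ℝ) : ℂ) with ha
  have hcos : ∀ t : ℝ, Complex.cos (a + t • Complex.I) = ((-Real.cosh t : ℝ) : ℂ) := by
    intro t
    rw [ha, Complex.real_smul, Complex.cos_add_mul_I]
    have h1 : Complex.cos (((2 * (k : ℝ) + 1) * Real.pi : ℝ) : ℂ) = -1 := by
      rw [← Complex.ofReal_cos]
      have : (2 * (k : ℝ) + 1) * Real.pi = Real.pi + (k : ℝ) * (2 * Real.pi) := by ring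
      rw [this, Real.cos_add_nat_mul_two_pi, Real.cos_pi]; simp
    have h2 : Complex.sin (((2 * (k : ℝ) + 1) * Real.pi : ℝ) : ℂ) = 0 := by
      rw [← Complex.ofReal_sin]
      have : (2 * (k : ℝ) + 1) * Real.pi = Real.pi + (k : ℝ) * (2 * Real.pi) := by ring
      rw [this, Real.sin_add_nat_mul_two_pi, Real.sin_pi]; simp
    rw [h1, h2]
    simp
  have hd : ∀ t : ℝ, HasDerivAt (fun s : ℝ => f (a + s • Complex.I))
      (Complex.I * ((Real.exp (-Real.cosh t) : ℝ) : ℂ)) t := by
    intro t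
    have h1 := hasDerivAt_line (hf (a + t • Complex.I))
    rw [hcos t, ← Complex.ofReal_exp] at h1
    exact h1
  have hdr : ∀ t : ℝ, HasDerivAt (fun s : ℝ => (f (a + s • Complex.I)).re) 0 t := by
    intro t
    have := hasDerivAt_re (hd t)
    rwa [Complex.I_mul_re, Complex.ofReal_im, neg_zero] at this
  have hdi : ∀ t : ℝ, HasDerivAt (fun s : ℝ => (f (a + s • Complex.I)).im)
      (Real.exp (-Real.cosh t)) t := by
    intro t
    have := hasDerivAt_im (hd t)
    rwa [Complex.I_mul_im, Complex.ofReal_re] at this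
  constructor
  · have h1 := is_const_of_deriv_eq_zero (f := fun s : ℝ => (f (a + s • Complex.I)).re)
      (fun t => (hdr t).differentiableAt) (fun t => (hdr t).deriv) s 0
    simpa using h1
  · have hle : ∀ t : ℝ, Real.exp (-Real.cosh t) ≤ 1 / (1 + t ^ 2) := by
      intro t
      rw [Real.exp_neg, ← one_div]
      apply one_div_le_one_div_of_le (by positivity)
      have h1 := Real.quadratic_le_exp_of_nonneg (Real.cosh_pos t).le
      have h2 : 1 + t ^ 2 / 2 ≤ Real.cosh t := by
        have e1 : Real.cosh t = Real.cosh (t / 2) ^ 2 + Real.sinh (t / 2) ^ 2 := by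
          rw [← Real.cosh_two_mul]; congr 1; ring
        have e2 := Real.cosh_sq (t / 2)
        have e3 : |t / 2| ≤ |Real.sinh (t / 2)| := by
          rw [Real.abs_sinh]
          exact Real.self_le_sinh_iff.mpr (abs_nonneg _)
        have e4 : (t / 2) ^ 2 ≤ Real.sinh (t / 2) ^ 2 := sq_le_sq.mpr e3
        nlinarith
      nlinarith [sq_nonneg t]
    have hmono : Monotone (fun t : ℝ => Real.arctan t - (f (a + t • Complex.I)).im) := by
      refine monotone_of_hasDerivAt_nonneg (f' := fun t => 1 / (1 + t ^ 2) - Real.exp (-Real.cosh t))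
        (fun t => (Real.hasDerivAt_arctan t).sub (hdi t)) (fun t => ?_)
      simp only [Pi.zero_apply]
      linarith [hle t]
    have hmono2 : Monotone (fun t : ℝ => (f (a + t • Complex.I)).im) := by
      refine monotone_of_hasDerivAt_nonneg (fun t => hdi t) (fun t => ?_)
      exact (Real.exp_pos _).le
    have hz : (f (a + (0 : ℝ) • Complex.I)).im = 0 := by simpa using h0
    rw [abs_le]
    rcases le_total 0 s with hs | hs
    · have h1 := hmono hs
      have h2 := hmono2 hs
      simp only [Real.arctan_zero, hz] at h1 h2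
      have h3 := Real.arctan_lt_pi_div_two s
      constructor <;> linarith [Real.pi_pos]
    · have h1 := hmono hs
      have h2 := hmono2 hs
      simp only [Real.arctan_zero, hz] at h1 h2
      have h3 := Real.neg_pi_div_two_lt_arctan s
      constructor <;> linarith [Real.pi_pos]

/-- periodicity up to a positive real constant -/
lemma period (hf : ∀ w, HasDerivAt f (Complex.exp (Complex.cos w)) w) (hpi : f (Real.pi : ℂ) = 0) :
    ∃ c : ℝ, 0 < c ∧ ∀ k : ℕ, f (((2 * (k : ℝ) + 1) * Real.pi : ℝ) : ℂ) = ((k * c : ℝ) : ℂ) := by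
  have hreal : ∀ x : ℝ, HasDerivAt (fun s : ℝ => f (s : ℂ)) ((Real.exp (Real.cos x) : ℝ) : ℂ) x := by
    intro x
    have h1 := (hf (x : ℂ)).comp_ofReal
    rw [← Complex.ofReal_cos, ← Complex.ofReal_exp] at h1
    exact h1
  have him : ∀ x : ℝ, (f (x : ℂ)).im = 0 := by
    intro x
    have h1 : ∀ x : ℝ, HasDerivAt (fun s : ℝ => (f (s : ℂ)).im) 0 x := by
      intro x
      have := hasDerivAt_im (hreal x)
      rwa [Complex.ofReal_im] at this
    have h2 := is_const_of_deriv_eq_zero (f := fun s : ℝ => (f (s : ℂ)).im)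
      (fun t => (h1 t).differentiableAt) (fun t => (h1 t).deriv) x Real.pi
    simp only [hpi, Complex.zero_im] at h2
    exact h2
  have hmono : StrictMono (fun s : ℝ => (f (s : ℂ)).re) := by
    refine strictMono_of_hasDerivAt_pos (f' := fun x => Real.exp (Real.cos x)) (fun x => ?_)
      (fun x => Real.exp_pos _)
    have := hasDerivAt_re (hreal x)
    rwa [Complex.ofReal_re] at this
  have hper : ∀ w : ℂ, f (w + 2 * Real.pi) - f w = f (3 * Real.pi) := by
    intro w
    have h1 : ∀ w : ℂ, HasDerivAt (fun w => f (w + 2 * Real.pi) - f w) 0 w := by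
      intro w
      have h2 := ((hf (w + 2 * Real.pi)).comp_add_const w (2 * Real.pi : ℂ)).sub (hf w)
      rw [Complex.cos_add_two_pi, sub_self] at h2
      exact h2
    have h2 := is_const_of_deriv_eq_zero (f := fun w : ℂ => f (w + 2 * Real.pi) - f w)
      (fun t => (h1 t).differentiableAt) (fun t => (h1 t).deriv) w Real.pi
    simp only [hpi, sub_zero] at h2
    rw [h2]
    congr 1; ring
  refine ⟨(f (3 * Real.pi)).re, ?_, ?_⟩
  · have h1 := hmono (show Real.pi < 3 * Real.pi by linarith [Real.pi_pos])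
    simp only [hpi, Complex.zero_re] at h1
    simpa using h1
  · have hc : f (3 * Real.pi) = (((f (3 * Real.pi)).re : ℝ) : ℂ) := by
      apply Complex.ext
      · simp
      · have := him (3 * Real.pi)
        simpa using this
    intro k
    induction k with
    | zero => simp [hpi]
    | succ k ih =>
      have h1 := hper (((2 * (k : ℝ) + 1) * Real.pi : ℝ) : ℂ)
      have h2 : (((2 * ((k + 1 : ℕ) : ℝ) + 1) * Real.pi : ℝ) : ℂ)
          = (((2 * (k : ℝ) + 1) * Real.pi : ℝ) : ℂ) + 2 * Real.pi := by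
        push_cast; ring
      rw [h2, sub_eq_iff_eq_add.mp h1, ih, hc]
      push_cast
      simp only [Complex.ofReal_re]
      ring

/-- value of the separating function on the walls -/
lemma rho_wall (hf : ∀ w, HasDerivAt f (Complex.exp (Complex.cos w)) w) {c : ℝ} (hc : 0 < c)
    (hw : ∀ k : ℕ, f (((2 * (k : ℝ) + 1) * Real.pi : ℝ) : ℂ) = ((k * c : ℝ) : ℂ)) (k : ℕ) {z : ℂ}
    (hz : z.re = (2 * (k : ℝ) + 1) * Real.pi) :
    ∃ r : ℝ, (Real.cosh (Real.pi / 2))⁻¹ ≤ r ∧ rho f (Real.pi / c) z = (-1) ^ k * r := by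
  have hz' : z = (((2 * (k : ℝ) + 1) * Real.pi : ℝ) : ℂ) + z.im • Complex.I := by
    rw [← hz, Complex.real_smul, Complex.re_add_im]
  obtain ⟨h1, h2⟩ := wall_im hf k (by rw [hw k, Complex.ofReal_im]) z.im
  rw [← hz'] at h1 h2
  refine ⟨(Real.cosh (f z).im)⁻¹, ?_, ?_⟩
  · apply inv_anti₀ (Real.cosh_pos _)
    rw [Real.cosh_le_cosh, abs_of_pos (by positivity : 0 < Real.pi / 2)]
    exact h2
  · unfold rho
    rw [h1, hw k, Complex.ofReal_re]
    have : Real.pi / c * (k * c) = k * Real.pi := by field_simp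
    rw [this, Real.cos_nat_mul_pi]

/-- There is an entire solution of the Liouville equation whose metric has infinite diameter. -/
theorem result : ∃ u : ℂ → ℝ, AnalyticOnNhd ℝ u univ ∧
    (∀ z, Δ u z + Real.exp (2 * u z) = 0) ∧ ∀ L : ℝ, ∃ x y : ℂ, L < gdist u x y := by
  obtain ⟨f, hpi, hf'⟩ := (Complex.differentiable_exp.comp
    Complex.differentiable_cos).isExactOn_univ.with_val_at (Real.pi : ℂ) 0
  have hf : ∀ w, HasDerivAt f (Complex.exp (Complex.cos w)) w := fun w => hf' w (mem_univ _)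
  obtain ⟨c, hc, hw⟩ := period hf hpi
  have hcu : Continuous (u f) := (contDiff_u (n := 0) hf).continuous
  refine ⟨u f, ?_, equation hf, ?_⟩
  · rw [← contDiff_omega_iff_analyticOnNhd]
    exact contDiff_u hf
  intro L
  set δ : ℝ := (Real.cosh (Real.pi / 2))⁻¹ with hδ
  have hδ0 : 0 < δ := inv_pos.mpr (Real.cosh_pos _)
  set κ : ℝ := Real.pi / c with hκ
  have hκ0 : 0 ≤ κ := (div_pos Real.pi_pos hc).le
  obtain ⟨N, hN⟩ := exists_nat_gt (L * (κ + 1) / (2 * δ))
  refine ⟨(Real.pi : ℂ), (((2 * (N : ℝ) + 1) * Real.pi : ℝ) : ℂ), ?_⟩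
  have hlt : L < N * (2 * δ) / (κ + 1) := by
    rw [lt_div_iff₀ (by positivity)]
    rw [div_lt_iff₀ (by positivity)] at hN
    exact hN
  refine hlt.trans_le (le_gdist ?_)
  intro γ hγ h0 h1
  rw [div_le_iff₀ (by positivity), mul_comm (glen _ _)]
  have hγc := hγ.cont
  have hrec : ContinuousOn (fun t => (γ t).re) (Icc 0 1) := Complex.continuous_re.comp_continuousOn hγc
  have hint := hγ.int hcu
  have claim : ∀ k : ℕ, k ≤ N → ∃ t ∈ Icc (0 : ℝ) 1, (γ t).re = (2 * (k : ℝ) + 1) * Real.pi ∧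
      k * (2 * δ) ≤ (κ + 1) * ∫ s in (0 : ℝ)..t, Real.exp (u f (γ s)) * ‖deriv γ s‖ := by
    intro k
    induction k with
    | zero =>
      intro _
      refine ⟨0, left_mem_Icc.mpr zero_le_one, ?_, ?_⟩
      · rw [h0]; simp
      · simp
    | succ k ih =>
      intro hk
      obtain ⟨t, ht, hre, hle⟩ := ih (by omega)
      have hiv := intermediate_value_Icc ht.2 (hrec.mono (Icc_subset_Icc ht.1 le_rfl))
      have hkN : ((k + 1 : ℕ) : ℝ) ≤ N := by exact_mod_cast hk
      have hmem : (2 * ((k + 1 : ℕ) : ℝ) + 1) * Real.pi ∈ Icc ((γ t).re) ((γ 1).re) := by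
        constructor
        · rw [hre]
          apply mul_le_mul_of_nonneg_right _ Real.pi_pos.le
          push_cast; linarith
        · rw [h1, Complex.ofReal_re]
          apply mul_le_mul_of_nonneg_right _ Real.pi_pos.le
          linarith
      obtain ⟨t', ht', hre'⟩ := hiv hmem
      simp only at hre'
      have ht'1 : t' ∈ Icc (0 : ℝ) 1 := ⟨ht.1.trans ht'.1, ht'.2⟩
      refine ⟨t', ht'1, hre', ?_⟩
      have hlow := lower hγ hcu (a := t) (b := t') ht.1 ht'.1 ht'.2 (U := univ)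
        (ρ := rho f κ) (ρ' := rhoD f κ) (fun _ _ => mem_univ _)
        (fun z _ => hasFDerivAt_rho hf κ z) (continuous_rhoD hf κ).continuousOn
        (fun z _ v => rhoD_le hκ0 z v)
      obtain ⟨r, hr, hr'⟩ := rho_wall hf hc hw k hre
      obtain ⟨r₂, hr₂, hr₂'⟩ := rho_wall hf hc hw (k + 1) hre'
      rw [← hκ] at hr' hr₂'
      rw [hr', hr₂'] at hlow
      have habs : |(-1 : ℝ) ^ (k + 1) * r₂ - (-1) ^ k * r| = r₂ + r := by
        have : (-1 : ℝ) ^ (k + 1) * r₂ - (-1) ^ k * r = (-1) ^ k * (-(r₂ + r)) := by ring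
        rw [this, abs_mul, abs_pow, abs_neg, abs_one, one_pow, one_mul, abs_neg, abs_of_pos]
        linarith
      rw [habs] at hlow
      have i1 : IntervalIntegrable (fun s => Real.exp (u f (γ s)) * ‖deriv γ s‖) volume 0 t :=
        hint.mono_set (by
          rw [uIcc_of_le ht.1, uIcc_of_le zero_le_one]; exact Icc_subset_Icc le_rfl ht.2)
      have i2 : IntervalIntegrable (fun s => Real.exp (u f (γ s)) * ‖deriv γ s‖) volume t t' :=
        hint.mono_set (by
          rw [uIcc_of_le ht'.1, uIcc_of_le zero_le_one]; exact Icc_subset_Icc ht.1 ht'.2)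
      rw [← intervalIntegral.integral_add_adjacent_intervals i1 i2, mul_add]
      push_cast
      linarith
  obtain ⟨t, ht, -, hle⟩ := claim N le_rfl
  refine hle.trans (mul_le_mul_of_nonneg_left ?_ (by positivity))
  have i1 : IntervalIntegrable (fun s => Real.exp (u f (γ s)) * ‖deriv γ s‖) volume 0 t :=
    hint.mono_set (by
      rw [uIcc_of_le ht.1, uIcc_of_le zero_le_one]; exact Icc_subset_Icc le_rfl ht.2)
  have i2 : IntervalIntegrable (fun s => Real.exp (u f (γ s)) * ‖deriv γ s‖) volume t 1 :=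
    hint.mono_set (by
      rw [uIcc_of_le ht.2, uIcc_of_le zero_le_one]; exact Icc_subset_Icc ht.1 le_rfl)
  have hsum : glen (u f) γ = (∫ s in (0 : ℝ)..t, Real.exp (u f (γ s)) * ‖deriv γ s‖)
      + ∫ s in t..1, Real.exp (u f (γ s)) * ‖deriv γ s‖ := by
    rw [intervalIntegral.integral_add_adjacent_intervals i1 i2]
    rfl
  have hnn : 0 ≤ ∫ s in t..1, Real.exp (u f (γ s)) * ‖deriv γ s‖ :=
    intervalIntegral.integral_nonneg ht.2 (fun s _ => by positivity)
  rw [hsum]
  linarith

end Pool.Agent.Results.MP_ae50c7_an.InfiniteDiameter
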